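import Mathlib

namespace Pool.Agent.Results.MP_d44763_nt.Ratio

/-- A walker that can stay forever in a set of non-primes refutes forcing. -/
theorem walker {i j : ℤ} (G : ℤ → Prop)
    (hstep : ∀ x, G x → G (x + i) ∨ G (x + j))
    (hnp : ∀ x, G x → ¬ Nat.Prime x.natAbs)
    {k : ℤ} (hk : Odd k) (hGk : G k)
    (hforce : ∀ k : ℤ, Odd k → ∀ A : ℕ → ℤ, A 0 = k →
      (∀ n : ℕ, A (n + 1) - A n = i ∨ A (n + 1) - A n = j) →
        ∃ n : ℕ, Nat.Prime (A n).natAbs) : False := by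
  classical
  let A : ℕ → ℤ := fun n => Nat.rec k (fun _ x => if G (x + i) then x + i else x + j) n
  have hA0 : A 0 = k := rfl
  have hAs : ∀ n, A (n + 1) = if G (A n + i) then A n + i else A n + j := fun n => rfl
  have hG : ∀ n, G (A n) := by
    intro n
    induction n with
    | zero => exact hGk
    | succ n ih =>
      rw [hAs]
      by_cases h : G (A n + i)
      · rw [if_pos h]; exact h
      · rw [if_neg h]
        rcases hstep _ ih with h1 | h1
        · exact absurd h1 h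
        · exact h1
  obtain ⟨n, hn⟩ := hforce k hk A hA0 (by
    intro n
    rw [hAs]
    by_cases h : G (A n + i)
    · rw [if_pos h]; left; ring
    · rw [if_neg h]; right; ring)
  exact hnp _ (hG n) hn

theorem not_prime_of_dvd_gt {q x : ℤ} (hq : 1 < q) (hx : q < x) (hd : q ∣ x) :
    ¬ Nat.Prime x.natAbs := by
  intro hp
  have h1 : q.natAbs ∣ x.natAbs := Int.natAbs_dvd_natAbs.mpr hd
  rcases (Nat.dvd_prime hp).1 h1 with h | h
  · omega
  · omega

/-- constant steps -/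
theorem one_step {i j q : ℤ} (hi0 : 0 < i) (hq : 1 < q) (hqo : Odd q) (hd : q ∣ i)
    (hforce : ∀ k : ℤ, Odd k → ∀ A : ℕ → ℤ, A 0 = k →
      (∀ n : ℕ, A (n + 1) - A n = i ∨ A (n + 1) - A n = j) →
        ∃ n : ℕ, Nat.Prime (A n).natAbs) : False := by
  refine walker (i := i) (j := j) (fun x => q ∣ x ∧ q < x) ?_ ?_ (k := q * q) (hqo.mul hqo) ?_ hforce
  · rintro x ⟨h1, h2⟩
    left
    exact ⟨dvd_add h1 hd, by linarith⟩
  · rintro x ⟨h1, h2⟩
    exact not_prime_of_dvd_gt hq h2 h1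
  · exact ⟨dvd_mul_right q q, by nlinarith⟩

/-- two steps alternate -/
theorem two_step {i j q₀ q₁ k : ℤ} (hi0 : 0 < i) (hj0 : 0 < j) (hk : Odd k)
    (h0 : 1 < q₀) (h1 : 1 < q₁) (hk0 : q₀ < k) (hk1 : q₁ < k)
    (hT0 : q₀ ∣ i + j) (hT1 : q₁ ∣ i + j) (hd0 : q₀ ∣ k) (hd1 : q₁ ∣ k + i)
    (hforce : ∀ k : ℤ, Odd k → ∀ A : ℕ → ℤ, A 0 = k →
      (∀ n : ℕ, A (n + 1) - A n = i ∨ A (n + 1) - A n = j) →
        ∃ n : ℕ, Nat.Prime (A n).natAbs) : False := by
  refine walker (i := i) (j := j)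
    (fun x => ∃ n : ℕ, x = k + n * (i + j) ∨ x = k + n * (i + j) + i) ?_ ?_ hk ?_ hforce
  · rintro x ⟨n, h | h⟩
    · left
      exact ⟨n, Or.inr (by rw [h])⟩
    · right
      refine ⟨n + 1, Or.inl ?_⟩
      rw [h]; push_cast; ring
  · rintro x ⟨n, h | h⟩
    · have hn : (0:ℤ) ≤ n * (i + j) := by positivity
      refine not_prime_of_dvd_gt h0 (by linarith) ?_
      rw [h]; exact dvd_add hd0 (Dvd.dvd.mul_left hT0 _)
    · have hn : (0:ℤ) ≤ n * (i + j) := by positivity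
      refine not_prime_of_dvd_gt h1 (by linarith) ?_
      have : x = (k + i) + n * (i + j) := by rw [h]; ring
      rw [this]; exact dvd_add hd1 (Dvd.dvd.mul_left hT1 _)
  · exact ⟨0, Or.inl (by simp)⟩

/-- three steps: offsets 0, o₁, o₂ and total T -/
theorem three_step {i j o₁ o₂ T q₀ q₁ q₂ k : ℤ} (hi0 : 0 < i) (hj0 : 0 < j) (hk : Odd k)
    (hs0 : o₁ = i ∨ o₁ = j) (hs1 : o₂ = o₁ + i ∨ o₂ = o₁ + j) (hs2 : T = o₂ + i ∨ T = o₂ + j)
    (h0 : 1 < q₀) (h1 : 1 < q₁) (h2 : 1 < q₂) (hk0 : q₀ < k) (hk1 : q₁ < k) (hk2 : q₂ < k)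
    (hT0 : q₀ ∣ T) (hT1 : q₁ ∣ T) (hT2 : q₂ ∣ T)
    (hd0 : q₀ ∣ k) (hd1 : q₁ ∣ k + o₁) (hd2 : q₂ ∣ k + o₂)
    (hforce : ∀ k : ℤ, Odd k → ∀ A : ℕ → ℤ, A 0 = k →
      (∀ n : ℕ, A (n + 1) - A n = i ∨ A (n + 1) - A n = j) →
        ∃ n : ℕ, Nat.Prime (A n).natAbs) : False := by
  have ho1 : 0 < o₁ := by rcases hs0 with h | h <;> linarith
  have ho2 : 0 < o₂ := by rcases hs1 with h | h <;> linarith
  have hT : 0 < T := by rcases hs2 with h | h <;> linarith
  refine walker (i := i) (j := j)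
    (fun x => ∃ n : ℕ, x = k + n * T ∨ x = k + n * T + o₁ ∨ x = k + n * T + o₂)
    ?_ ?_ hk ?_ hforce
  · rintro x ⟨n, h | h | h⟩
    · rcases hs0 with hs | hs
      · left; exact ⟨n, Or.inr (Or.inl (by rw [h, hs]))⟩
      · right; exact ⟨n, Or.inr (Or.inl (by rw [h, hs]))⟩
    · rcases hs1 with hs | hs
      · left; exact ⟨n, Or.inr (Or.inr (by rw [h, hs]; ring))⟩
      · right; exact ⟨n, Or.inr (Or.inr (by rw [h, hs]; ring))⟩
    · rcases hs2 with hs | hs
      · left; exact ⟨n + 1, Or.inl (by rw [h]; push_cast; rw [hs]; ring)⟩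
      · right; exact ⟨n + 1, Or.inl (by rw [h]; push_cast; rw [hs]; ring)⟩
  · rintro x ⟨n, h | h | h⟩
    · have hn : (0:ℤ) ≤ n * T := by positivity
      refine not_prime_of_dvd_gt h0 (by linarith) ?_
      rw [h]; exact dvd_add hd0 (Dvd.dvd.mul_left hT0 _)
    · have hn : (0:ℤ) ≤ n * T := by positivity
      refine not_prime_of_dvd_gt h1 (by linarith) ?_
      have : x = (k + o₁) + n * T := by rw [h]; ring
      rw [this]; exact dvd_add hd1 (Dvd.dvd.mul_left hT1 _)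
    · have hn : (0:ℤ) ≤ n * T := by positivity
      refine not_prime_of_dvd_gt h2 (by linarith) ?_
      have : x = (k + o₂) + n * T := by rw [h]; ring
      rw [this]; exact dvd_add hd2 (Dvd.dvd.mul_left hT2 _)
  · exact ⟨0, Or.inl (by simp)⟩

/-- a Chinese remainder choice of an odd starting point for three moduli -/
theorem crt3 {q₀ q₁ q₂ : ℕ} (a b : ℕ) (o0 : Odd q₀) (o1 : Odd q₁) (o2 : Odd q₂)
    (c01 : Nat.Coprime q₀ q₁) (c02 : Nat.Coprime q₀ q₂) (c12 : Nat.Coprime q₁ q₂) :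
    ∃ k : ℕ, Odd k ∧ q₀ < k ∧ q₁ < k ∧ q₂ < k ∧ q₀ ∣ k ∧ q₁ ∣ k + a ∧ q₂ ∣ k + b := by
  have p0 : 0 < q₀ := o0.pos
  have p1 : 0 < q₁ := o1.pos
  have p2 : 0 < q₂ := o2.pos
  obtain ⟨x, hx0, hx1⟩ := Nat.chineseRemainder c01 0 ((q₁ - 1) * a)
  obtain ⟨y, hy0, hy1⟩ := Nat.chineseRemainder (Nat.Coprime.mul_left c02 c12) x ((q₂ - 1) * b)
  have c2 : Nat.Coprime (q₀ * q₁ * q₂) 2 := by
    rw [Nat.coprime_two_right]
    exact (o0.mul o1).mul o2
  obtain ⟨z, hz0, hz1⟩ := Nat.chineseRemainder c2 y 1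
  have hzq0 : z ≡ 0 [MOD q₀] := by
    have e1 : z ≡ y [MOD q₀] := hz0.of_dvd (by rw [mul_assoc]; exact dvd_mul_right _ _)
    have e2 : y ≡ x [MOD q₀] := hy0.of_dvd (dvd_mul_right _ _)
    exact e1.trans (e2.trans hx0)
  have hzq1 : z ≡ (q₁ - 1) * a [MOD q₁] := by
    have e1 : z ≡ y [MOD q₁] := hz0.of_dvd ⟨q₀ * q₂, by ring⟩
    have e2 : y ≡ x [MOD q₁] := hy0.of_dvd (dvd_mul_left _ _)
    exact e1.trans (e2.trans hx1)
  have hzq2 : z ≡ (q₂ - 1) * b [MOD q₂] := by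
    have e1 : z ≡ y [MOD q₂] := hz0.of_dvd (dvd_mul_left _ _)
    exact e1.trans hy1
  refine ⟨z + 2 * (q₀ * q₁ * q₂), ?_, ?_, ?_, ?_, ?_, ?_, ?_⟩
  · have hz : Odd z := by
      rw [Nat.odd_iff]
      exact hz1
    exact hz.add_even (even_two_mul _)
  · have : q₀ * 1 ≤ q₀ * (q₁ * q₂) := Nat.mul_le_mul_left _ (Nat.mul_pos p1 p2)
    have e : q₀ * q₁ * q₂ = q₀ * (q₁ * q₂) := by ring
    omega
  · have : q₁ * 1 ≤ q₁ * (q₀ * q₂) := Nat.mul_le_mul_left _ (Nat.mul_pos p0 p2)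
    have e : q₀ * q₁ * q₂ = q₁ * (q₀ * q₂) := by ring
    omega
  · have : q₂ * 1 ≤ q₂ * (q₀ * q₁) := Nat.mul_le_mul_left _ (Nat.mul_pos p0 p1)
    have e : q₀ * q₁ * q₂ = q₂ * (q₀ * q₁) := by ring
    omega
  · have : q₀ ∣ z := (Nat.modEq_zero_iff_dvd).1 hzq0
    exact dvd_add this ⟨2 * (q₁ * q₂), by ring⟩
  · have h1 : z + a ≡ 0 [MOD q₁] := by
      have : z + a ≡ (q₁ - 1) * a + a [MOD q₁] := hzq1.add_right a
      refine this.trans ?_
      rw [Nat.modEq_zero_iff_dvd]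
      refine ⟨a, ?_⟩
      obtain ⟨r, rfl⟩ : ∃ r, q₁ = r + 1 := ⟨q₁ - 1, by omega⟩
      simp; ring
    have h2 : q₁ ∣ z + a := (Nat.modEq_zero_iff_dvd).1 h1
    have h3 : z + 2 * (q₀ * q₁ * q₂) + a = (z + a) + q₁ * (2 * (q₀ * q₂)) := by ring
    rw [h3]
    exact dvd_add h2 (dvd_mul_right _ _)
  · have h1 : z + b ≡ 0 [MOD q₂] := by
      have : z + b ≡ (q₂ - 1) * b + b [MOD q₂] := hzq2.add_right b
      refine this.trans ?_
      rw [Nat.modEq_zero_iff_dvd]
      refine ⟨b, ?_⟩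
      obtain ⟨r, rfl⟩ : ∃ r, q₂ = r + 1 := ⟨q₂ - 1, by omega⟩
      simp; ring
    have h2 : q₂ ∣ z + b := (Nat.modEq_zero_iff_dvd).1 h1
    have h3 : z + 2 * (q₀ * q₁ * q₂) + b = (z + b) + q₂ * (2 * (q₀ * q₁)) := by ring
    rw [h3]
    exact dvd_add h2 (dvd_mul_right _ _)

/-- `2^u+1` is a prime power only if it is a prime or `9`. -/
theorem prime_pow_lemma {u p e : ℕ} (hp : p.Prime) (hu : 1 ≤ u) (h : 2 ^ u + 1 = p ^ e) :
    e = 1 ∨ (u = 3 ∧ p = 3) := by
  have h2u : 2 ≤ 2 ^ u := by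
    calc 2 = 2 ^ 1 := by norm_num
      _ ≤ 2 ^ u := Nat.pow_le_pow_right (by norm_num) hu
  have he0 : e ≠ 0 := by
    rintro rfl
    simp at h
  have hpodd : Odd p := by
    rcases hp.eq_two_or_odd' with h2 | h2
    · exfalso
      subst h2
      have h3 : 2 ∣ 2 ^ u + 1 := by rw [h]; exact dvd_pow_self 2 he0
      have h4 : 2 ∣ 2 ^ u := dvd_pow_self 2 (by omega)
      omega
    · exact h2
  rcases Nat.even_or_odd' e with ⟨f, hf | hf⟩
  · right
    have hf1 : 1 ≤ f := by omega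
    have hx1 : 1 < p ^ f := Nat.one_lt_pow (by omega) hp.one_lt
    obtain ⟨y, hy⟩ : ∃ y, p ^ f = y + 1 := ⟨p ^ f - 1, by omega⟩
    have hmul : y * (y + 2) = 2 ^ u := by
      have : 2 ^ u + 1 = (y + 1) ^ 2 := by rw [h, hf, ← hy]; ring
      nlinarith
    obtain ⟨α, hα, hα'⟩ := (Nat.dvd_prime_pow Nat.prime_two).1 (Dvd.intro _ hmul)
    obtain ⟨β, hβ, hβ'⟩ := (Nat.dvd_prime_pow Nat.prime_two).1 (Dvd.intro_left _ hmul)
    have hyy : y = 2 := by
      rcases Nat.lt_or_ge α 2 with hα2 | hα2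
      · interval_cases α
        · -- y = 1
          simp at hα'
          subst hα'
          -- 3 = 2^β
          exfalso
          rcases Nat.eq_zero_or_pos β with hb | hb
          · subst hb; simp at hβ'
          · have : 2 ∣ 2 ^ β := dvd_pow_self 2 (by omega)
            omega
        · simpa using hα'
      · exfalso
        have h4 : 4 ∣ y := by
          rw [hα']
          exact pow_dvd_pow 2 hα2
        have hb2 : 2 ≤ β := by
          by_contra hb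
          have : β = 0 ∨ β = 1 := by omega
          rcases this with hb | hb
          · subst hb; simp at hβ'
          · subst hb
            have : y = 0 := by simpa using hβ'
            rw [this] at hmul
            have : 0 < 2 ^ u := by positivity
            omega
        have h4' : 4 ∣ y + 2 := by
          rw [hβ']
          exact pow_dvd_pow 2 hb2
        omega
    subst hyy
    have hu3 : u = 3 := by
      have : 2 ^ u = 2 ^ 3 := by rw [← hmul]; norm_num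
      exact Nat.pow_right_injective (le_refl 2) this
    refine ⟨hu3, ?_⟩
    have hpd : p ∣ 3 := by
      rw [show (3:ℕ) = p ^ f by omega]
      exact dvd_pow_self p (by omega)
    exact (Nat.prime_dvd_prime_iff_eq hp Nat.prime_three).1 hpd
  · left
    by_contra hne
    have hf1 : 1 ≤ f := by omega
    have hsum : (∑ i ∈ Finset.range e, p ^ i) * (p - 1) = 2 ^ u := by
      have := Nat.geomSum_eq hp.two_le e
      have h1 : p - 1 ∣ p ^ e - 1 := by
        simpa using Nat.sub_dvd_pow_sub_pow p 1 e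
      rw [this, Nat.div_mul_cancel h1]
      omega
    obtain ⟨α, hα, hα'⟩ := (Nat.dvd_prime_pow Nat.prime_two).1 (Dvd.intro _ hsum)
    have hodd : Odd (∑ i ∈ Finset.range e, p ^ i) := by
      rw [Finset.odd_sum_iff_odd_card_odd]
      have : (Finset.filter (fun x => Odd (p ^ x)) (Finset.range e)) = Finset.range e := by
        apply Finset.filter_true_of_mem
        intro x _
        exact hpodd.pow
      rw [this, Finset.card_range, hf]
      exact ⟨f, rfl⟩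
    have hgt : 1 < ∑ i ∈ Finset.range e, p ^ i := by
      have h1 : ∑ i ∈ Finset.range 2, p ^ i ≤ ∑ i ∈ Finset.range e, p ^ i := by
        apply Finset.sum_le_sum_of_subset
        intro x hx
        simp only [Finset.mem_range] at hx ⊢
        omega
      have h2 : ∑ i ∈ Finset.range 2, p ^ i = 1 + p := by
        simp [Finset.sum_range_succ]
      have := hp.two_le
      omega
    rw [hα'] at hodd hgt
    rcases Nat.eq_zero_or_pos α with h0 | h0
    · subst h0; simp at hgt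
    · have : Even (2 ^ α) := (Nat.even_pow).2 ⟨even_two, by omega⟩
      exact (Nat.not_even_iff_odd.2 hodd) this

/-- three pairwise coprime odd divisors of `2^(3n)+1` -/
theorem three_divisors {n : ℕ} (hn : Odd n) (h5 : 5 ≤ n) :
    ∃ v w : ℕ, Odd v ∧ Odd w ∧ 1 < v ∧ 1 < w ∧ Nat.Coprime 3 v ∧ Nat.Coprime 3 w ∧
      Nat.Coprime v w ∧ 3 ∣ 2 ^ (3 * n) + 1 ∧ v ∣ 2 ^ (3 * n) + 1 ∧ w ∣ 2 ^ (3 * n) + 1 := by
  obtain ⟨m, hm⟩ := hn
  have hx : ∃ c, 2 ^ n = 3 * c + 2 := by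
    have h4 : (2 ^ n) % 3 = 2 := by
      rw [hm, pow_succ, pow_mul, Nat.mul_mod, Nat.pow_mod]
      norm_num
    exact ⟨2 ^ n / 3, by omega⟩
  obtain ⟨c, hc⟩ := hx
  have hfac : 2 ^ (3 * n) + 1 = (2 ^ n + 1) * (3 * (3 * (c * (c + 1)) + 1)) := by
    rw [mul_comm 3 n, pow_mul, hc]; ring
  have hcpos : 1 ≤ c := by
    have : 2 ^ 5 ≤ 2 ^ n := Nat.pow_le_pow_right (by norm_num) h5
    omega
  obtain ⟨e, v, hv, hve⟩ := Nat.exists_eq_pow_mul_and_not_dvd (n := 2 ^ n + 1) (by omega) 3 (by norm_num)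
  have hv1 : v ≠ 1 := by
    rintro rfl
    rw [mul_one] at hve
    rcases prime_pow_lemma Nat.prime_three (by omega) hve with h | ⟨h, _⟩
    · subst h
      have : 2 ^ 5 ≤ 2 ^ n := Nat.pow_le_pow_right (by norm_num) h5
      omega
    · omega
  have hv0 : v ≠ 0 := by
    rintro rfl
    simp at hve
  have hvdvd : v ∣ 2 ^ n + 1 := by rw [hve]; exact dvd_mul_left _ _
  have hoddn : Odd (2 ^ n + 1) := by
    have : Even (2 ^ n) := (Nat.even_pow).2 ⟨even_two, by omega⟩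
    exact this.add_one
  have hcc : Even (c * (c + 1)) := Nat.even_mul_succ_self c
  refine ⟨v, 3 * (c * (c + 1)) + 1, hoddn.of_dvd_nat hvdvd, (hcc.mul_left 3).add_one, by omega, ?_,
    (Nat.Prime.coprime_iff_not_dvd Nat.prime_three).2 hv, ?_, ?_, ?_, ?_, ?_⟩
  · have : 0 < c * (c + 1) := by positivity
    omega
  · rw [Nat.Prime.coprime_iff_not_dvd Nat.prime_three]
    omega
  · -- v divides 3 (c+1)
    have h1 : v ∣ c + 1 := by
      have : v ∣ 3 * (c + 1) := by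
        have e2 : 3 * (c + 1) = 2 ^ n + 1 := by rw [hc]; ring
        rw [e2]; exact hvdvd
      exact (Nat.Coprime.dvd_of_dvd_mul_left
        ((Nat.Prime.coprime_iff_not_dvd Nat.prime_three).2 hv).symm this)
    have h2 : Nat.Coprime (c + 1) (3 * (c * (c + 1)) + 1) := by
      have : 3 * (c * (c + 1)) + 1 = 1 + (c + 1) * (3 * c) := by ring
      rw [this]
      exact (Nat.coprime_add_mul_left_right (c + 1) 1 (3 * c)).2 (Nat.coprime_one_right _)
    exact Nat.Coprime.coprime_dvd_left h1 h2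
  · rw [hfac]
    exact ⟨(2 ^ n + 1) * (3 * (c * (c + 1)) + 1), by ring⟩
  · rw [hfac]; exact Dvd.dvd.mul_right hvdvd _
  · rw [hfac]; exact ⟨(2 ^ n + 1) * 3, by ring⟩

/-- every prime divisor of a step is 2 -/
theorem pow_two_of_force {i j : ℤ} (hi : 0 < i)
    (hforce : ∀ k : ℤ, Odd k → ∀ A : ℕ → ℤ, A 0 = k →
      (∀ n : ℕ, A (n + 1) - A n = i ∨ A (n + 1) - A n = j) →
        ∃ n : ℕ, Nat.Prime (A n).natAbs) : ∃ a : ℕ, i = 2 ^ a := by
  have h : i.natAbs = 2 ^ i.natAbs.primeFactorsList.length := by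
    apply Nat.eq_prime_pow_of_unique_prime_dvd (by omega)
    intro d hd hdi
    by_contra hne
    have hodd : Odd d := hd.odd_of_ne_two hne
    refine one_step (i := i) (j := j) (q := (d : ℤ)) hi ?_ ?_ ?_ hforce
    · exact_mod_cast hd.one_lt
    · exact_mod_cast hodd
    · exact Int.natCast_dvd.2 hdi
  refine ⟨i.natAbs.primeFactorsList.length, ?_⟩
  have h2 : (i.natAbs : ℤ) = i := by omega
  rw [← h2]
  exact_mod_cast h

/-- If two distinct positive even step sizes `i < j` force primes, then `i` is a power of two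
and `j / i` is one of `2, 4, 8, 16, 256`. -/
theorem result (i j : ℤ) (hi : Even i) (_hj : Even j) (hi0 : 0 < i) (hij : i < j)
    (hforce : ∀ k : ℤ, Odd k → ∀ A : ℕ → ℤ, A 0 = k →
      (∀ n : ℕ, A (n + 1) - A n = i ∨ A (n + 1) - A n = j) →
        ∃ n : ℕ, Nat.Prime (A n).natAbs) :
    ∃ s : ℕ, 1 ≤ s ∧ i = 2 ^ s ∧
      (j = 2 * i ∨ j = 4 * i ∨ j = 8 * i ∨ j = 16 * i ∨ j = 256 * i) := by
  obtain ⟨a, ha⟩ := pow_two_of_force hi0 hforce
  have hj0 : 0 < j := by linarith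
  obtain ⟨b, hb⟩ := pow_two_of_force (i := j) (j := i) hj0
    (fun k hk A h0 hA => hforce k hk A h0 (fun n => (hA n).symm))
  have ha1 : 1 ≤ a := by
    rcases Nat.eq_zero_or_pos a with h | h
    · subst h
      rw [ha] at hi
      simp at hi
    · exact h
  refine ⟨a, ha1, ha, ?_⟩
  have hab : a < b := by
    rw [ha, hb] at hij
    exact (pow_lt_pow_iff_right₀ (by norm_num)).1 hij
  obtain ⟨u, rfl⟩ : ∃ u, b = a + u := ⟨b - a, by omega⟩
  have hu : 1 ≤ u := by omega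
  have hju : j = 2 ^ u * i := by rw [ha, hb, pow_add]; ring
  -- two-step walks
  obtain ⟨e, v, hv, hve⟩ := Nat.exists_eq_pow_mul_and_not_dvd (n := 2 ^ u + 1) (Nat.succ_ne_zero _)
    (Nat.minFac (2 ^ u + 1)) (Nat.minFac_prime (by simp)).ne_one
  set p := Nat.minFac (2 ^ u + 1) with hpdef
  have hp : p.Prime := Nat.minFac_prime (by simp)
  have hodd : Odd (2 ^ u + 1) := by
    have : Even (2 ^ u) := (Nat.even_pow).2 ⟨even_two, by omega⟩
    exact this.add_one
  have hpd : p ∣ 2 ^ u + 1 := Nat.minFac_dvd _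
  have hvd : v ∣ 2 ^ u + 1 := by rw [hve]; exact dvd_mul_left _ _
  have hv0 : v ≠ 0 := by
    rintro rfl
    simp at hve
  have hIdef : ∃ I : ℕ, i = (I : ℤ) := ⟨2 ^ a, by rw [ha]; push_cast; ring⟩
  obtain ⟨I, hI⟩ := hIdef
  have hcast : ∀ q : ℕ, q ∣ 2 ^ u + 1 → (q : ℤ) ∣ i + j := by
    intro q hq
    have h1 : (q : ℤ) ∣ 2 ^ u + 1 := by exact_mod_cast hq
    have h2 : i + j = (2 ^ u + 1) * i := by rw [hju]; ring
    rw [h2]; exact Dvd.dvd.mul_right h1 _
  by_cases hv1 : v = 1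
  swap
  · exfalso
    have hcop : Nat.Coprime p v := (Nat.Prime.coprime_iff_not_dvd hp).2 hv
    obtain ⟨k, hko, hk0, hk1, -, hd0, hd1, -⟩ := crt3 (q₀ := p) (q₁ := v) (q₂ := 1) I 0
      (hodd.of_dvd_nat hpd) (hodd.of_dvd_nat hvd) odd_one hcop (Nat.coprime_one_right _)
      (Nat.coprime_one_right _)
    have hv2 : 1 < v := by omega
    refine two_step (i := i) (j := j) (q₀ := (p : ℤ)) (q₁ := (v : ℤ)) (k := (k : ℤ)) hi0 hj0
      (by exact_mod_cast hko) (by exact_mod_cast hp.one_lt) (by exact_mod_cast hv2) (by exact_mod_cast hk0)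
      (by exact_mod_cast hk1) (hcast p hpd) (hcast v hvd) (by exact_mod_cast hd0) ?_ hforce
    rw [hI]; exact_mod_cast hd1
  subst hv1
  rw [mul_one] at hve
  rcases prime_pow_lemma hp hu hve with he | ⟨hu3, _⟩
  swap
  · subst hu3
    right; right; left
    rw [hju]; norm_num
  -- `2^u+1` is prime
  have hprime : (2 ^ u + 1).Prime := by rw [hve, he, pow_one]; exact hp
  obtain ⟨t, ht⟩ := Nat.pow_of_pow_add_prime (a := 2) (by norm_num) (by omega) hprime
  rcases Nat.lt_or_ge t 4 with ht4 | ht4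
  · interval_cases t
    · left; rw [hju, ht]; norm_num
    · right; left; rw [hju, ht]; norm_num
    · right; right; right; left; rw [hju, ht]; norm_num
    · right; right; right; right; rw [hju, ht]; norm_num
  exfalso
  have hu16 : 16 ≤ u := by
    rw [ht]
    calc 16 = 2 ^ 4 := by norm_num
      _ ≤ 2 ^ t := Nat.pow_le_pow_right (by norm_num) ht4
  have hueven : Even u := by
    rw [ht]; exact (Nat.even_pow).2 ⟨even_two, by omega⟩
  have hmod : u % 3 = 1 ∨ u % 3 = 2 := by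
    have : ¬ 3 ∣ u := by
      rw [ht]
      intro h
      have := Nat.Prime.dvd_of_dvd_pow Nat.prime_three h
      omega
    omega
  rcases hmod with hm | hm
  · -- 3 ∣ u - 1
    obtain ⟨n, hn⟩ : ∃ n, u = 3 * n + 1 := ⟨u / 3, by omega⟩
    have hnodd : Odd n := by
      rw [Nat.odd_iff]
      have := Nat.even_iff.1 hueven
      omega
    obtain ⟨v, w, hvo, hwo, hv1, hw1, c3v, c3w, cvw, d3, dv, dw⟩ := three_divisors hnodd (by omega)
    obtain ⟨k, hko, hk0, hk1, hk2, hd0, hd1, hd2⟩ := crt3 (q₀ := 3) (q₁ := v) (q₂ := w) I (2 * I)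
      (by decide) hvo hwo c3v c3w cvw
    have hT : i + i + j = (2 ^ (3 * n) + 1) * (2 * i) := by
      rw [hju, hn, pow_succ]; ring
    have hdT : ∀ q : ℕ, q ∣ 2 ^ (3 * n) + 1 → (q : ℤ) ∣ i + i + j := by
      intro q hq
      have h1 : (q : ℤ) ∣ 2 ^ (3 * n) + 1 := by exact_mod_cast hq
      rw [hT]; exact Dvd.dvd.mul_right h1 _
    refine three_step (i := i) (j := j) (o₁ := i) (o₂ := i + i) (T := i + i + j)
      (q₀ := 3) (q₁ := (v : ℤ)) (q₂ := (w : ℤ)) (k := (k : ℤ)) hi0 hj0 (by exact_mod_cast hko)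
      (Or.inl rfl) (Or.inl rfl) (Or.inr rfl) (by norm_num) (by exact_mod_cast hv1)
      (by exact_mod_cast hw1) (by exact_mod_cast hk0) (by exact_mod_cast hk1)
      (by exact_mod_cast hk2) (by exact_mod_cast hdT 3 d3) (hdT v dv) (hdT w dw)
      (by exact_mod_cast hd0) ?_ ?_ hforce
    · rw [hI]; exact_mod_cast hd1
    · rw [hI]
      have : ((k : ℤ) + (I + I)) = ((k + 2 * I : ℕ) : ℤ) := by push_cast; ring
      rw [this]; exact_mod_cast hd2
  · -- 3 ∣ u + 1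
    obtain ⟨n, hn⟩ : ∃ n, u + 1 = 3 * n := ⟨(u + 1) / 3, by omega⟩
    have hnodd : Odd n := by
      rw [Nat.odd_iff]
      have := Nat.even_iff.1 hueven
      omega
    obtain ⟨v, w, hvo, hwo, hv1, hw1, c3v, c3w, cvw, d3, dv, dw⟩ := three_divisors hnodd (by omega)
    have hJdef : ∃ J : ℕ, j = (J : ℤ) := ⟨2 ^ u * I, by rw [hju, hI]; push_cast; ring⟩
    obtain ⟨J, hJ⟩ := hJdef
    obtain ⟨k, hko, hk0, hk1, hk2, hd0, hd1, hd2⟩ := crt3 (q₀ := 3) (q₁ := v) (q₂ := w) I (I + J)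
      (by decide) hvo hwo c3v c3w cvw
    have hT : i + j + j = (2 ^ (3 * n) + 1) * i := by
      rw [hju, ← hn, pow_succ]; ring
    have hdT : ∀ q : ℕ, q ∣ 2 ^ (3 * n) + 1 → (q : ℤ) ∣ i + j + j := by
      intro q hq
      have h1 : (q : ℤ) ∣ 2 ^ (3 * n) + 1 := by exact_mod_cast hq
      rw [hT]; exact Dvd.dvd.mul_right h1 _
    refine three_step (i := i) (j := j) (o₁ := i) (o₂ := i + j) (T := i + j + j)
      (q₀ := 3) (q₁ := (v : ℤ)) (q₂ := (w : ℤ)) (k := (k : ℤ)) hi0 hj0 (by exact_mod_cast hko)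
      (Or.inl rfl) (Or.inr rfl) (Or.inr rfl) (by norm_num) (by exact_mod_cast hv1)
      (by exact_mod_cast hw1) (by exact_mod_cast hk0) (by exact_mod_cast hk1)
      (by exact_mod_cast hk2) (by exact_mod_cast hdT 3 d3) (hdT v dv) (hdT w dw)
      (by exact_mod_cast hd0) ?_ ?_ hforce
    · rw [hI]; exact_mod_cast hd1
    · rw [hI, hJ]
      exact_mod_cast hd2

end Pool.Agent.Results.MP_d44763_nt.Ratio
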